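import Pool.Agent.H18.XX.TB
import Pool.Agent.H17.XW.TJ
import Pool.Agent.H66.XP.FMZ

/-!
# The exponential hierarchy in EQP: row FMW (finitely many requirements)
-/

set_option autoImplicit false

namespace Pool.Agent.H36.XX

open Finset Pool.Agent.H70.OQ
open Pool.Agent.H70.EH hiding T_NUM
open Pool.Agent.H78.XQ hiding T_POW T_SUM
open Pool.Agent.H6.NB hiding sg T_NUM
open Pool.Agent.H70.EI hiding T_AST
open Pool.Agent.H66.IP (Local ins sp dm IsZ scl mBp m0p)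
open Pool.Agent.H66.IQ
open Pool.Agent.H66.AV
open Pool.Agent.H40.XP (fmy_za)
open Pool.Agent.H17.XW (Una T_UNA)
open Pool.Agent.H18.XX

/-- The strings `a` with `16 |a| ≤ m`. -/
def adw (m : ℕ) : Finset (List Bool) :=
  (range (m / 16 + 1)).biUnion fun i => univ.image fun f : Fin i → Bool => List.ofFn f

theorem mem_adw (m : ℕ) (a : List Bool) : a ∈ adw m ↔ 16 * a.length ≤ m := by
  unfold adw
  rw [mem_biUnion]
  constructor
  · rintro ⟨i, hi, ha⟩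
    rw [mem_image] at ha
    obtain ⟨f, -, rfl⟩ := ha
    rw [List.length_ofFn]
    rw [mem_range] at hi
    omega
  · intro ha
    refine ⟨a.length, ?_, ?_⟩
    · rw [mem_range]
      omega
    · rw [mem_image]
      exact ⟨a.get, mem_univ _, List.ofFn_get a⟩

theorem card_adw (m : ℕ) : (adw m).card ≤ 2 ^ (m / 16 + 1) := by
  unfold adw
  refine card_biUnion_le.trans ?_
  have h1 : ∀ i ∈ range (m / 16 + 1),
      (univ.image fun f : Fin i → Bool => List.ofFn f).card ≤ 2 ^ i := by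
    intro i _
    refine card_image_le.trans (le_of_eq ?_)
    simp
  refine (Finset.sum_le_sum h1).trans ?_
  have h2 := Nat.geomSum_lt (m := 2) (n := m / 16 + 1) (s := range (m / 16 + 1)) le_rfl
    fun k hk => mem_range.1 hk
  exact h2.le

/-- the number of the advice strings times the bound -/
theorem adw_one (n : ℕ) (hn : 2 ^ 40 ≤ n) :
    ((adw (Nat.log 2 n ^ 2)).card : ℝ) * (1 / 2) ^ (Nat.log 2 n ^ 2 / 8) ≤
      1 / ((n : ℝ) * (n + 1)) := by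
  obtain ⟨L, hL⟩ : ∃ L, L = Nat.log 2 n := ⟨_, rfl⟩
  have hn0 : n ≠ 0 := by
    intro h
    rw [h] at hn
    exact absurd hn (by norm_num)
  have hL40 : 40 ≤ L := by
    rw [hL]
    exact Nat.le_log_of_pow_le (by norm_num) hn
  have hlt : n < 2 ^ (L + 1) := by
    rw [hL]
    exact Nat.lt_pow_succ_log_self (by norm_num) n
  rw [← hL]
  have hc : ((adw (L ^ 2)).card : ℝ) ≤ 2 ^ (L ^ 2 / 16 + 1) := by exact_mod_cast card_adw (L ^ 2)
  have hq : 2 * L + 3 ≤ L ^ 2 / 16 := by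
    rw [Nat.le_div_iff_mul_le (by norm_num)]
    nlinarith
  have h1 : (1 / 2 : ℝ) ^ (L ^ 2 / 8) ≤ (1 / 2) ^ (L ^ 2 / 16 + (2 * L + 3)) :=
    pow_le_pow_of_le_one (by norm_num) (by norm_num) (by omega)
  have hx : (n : ℝ) ≤ 2 ^ (L + 1) := by exact_mod_cast hlt.le
  have hy : (n : ℝ) + 1 ≤ 2 ^ (L + 1) := by exact_mod_cast hlt
  have hn1 : (0 : ℝ) < n := by exact_mod_cast Nat.pos_of_ne_zero hn0
  have h2 : (n : ℝ) * (n + 1) ≤ 2 ^ (2 * L + 2) := by
    have h3 : (2 : ℝ) ^ (2 * L + 2) = 2 ^ (L + 1) * 2 ^ (L + 1) := by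
      rw [← pow_add]
      congr 1
      ring
    rw [h3]
    exact mul_le_mul hx hy (by linarith) (by positivity)
  have h4 : (1 : ℝ) / 2 ^ (2 * L + 2) ≤ 1 / ((n : ℝ) * (n + 1)) :=
    one_div_le_one_div_of_le (by positivity) h2
  refine le_trans ?_ h4
  calc ((adw (L ^ 2)).card : ℝ) * (1 / 2) ^ (L ^ 2 / 8)
      ≤ 2 ^ (L ^ 2 / 16 + 1) * (1 / 2) ^ (L ^ 2 / 16 + (2 * L + 3)) :=
        mul_le_mul hc h1 (by positivity) (by positivity)
    _ = 1 / 2 ^ (2 * L + 2) := by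
        have h5 : (2 : ℝ) ^ (L ^ 2 / 16) * (1 / 2) ^ (L ^ 2 / 16) = 1 := by
          rw [← mul_pow]; norm_num
        have h6 : (2 : ℝ) ^ (2 * L + 2) * (1 / 2) ^ (2 * L + 2) = 1 := by
          rw [← mul_pow]; norm_num
        have h7 : (1 : ℝ) / 2 ^ (2 * L + 2) = (1 / 2) ^ (2 * L + 2) := by
          rw [one_div_pow]
        rw [h7]
        calc (2 : ℝ) ^ (L ^ 2 / 16 + 1) * (1 / 2) ^ (L ^ 2 / 16 + (2 * L + 3))
            = ((2 : ℝ) ^ (L ^ 2 / 16) * (1 / 2) ^ (L ^ 2 / 16)) *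
              (2 * (1 / 2) * (1 / 2) ^ (2 * L + 2)) := by
              rw [pow_add (2 : ℝ) (L ^ 2 / 16) 1, pow_add (1 / 2 : ℝ) (L ^ 2 / 16) (2 * L + 3),
                pow_succ (1 / 2 : ℝ) (2 * L + 2)]
              ring
          _ = (1 / 2) ^ (2 * L + 2) := by
              rw [h5]
              ring

theorem tel_sum (N M : ℕ) (hN : 1 ≤ N) (h : N ≤ M) :
    ∑ n ∈ Ico N M, 1 / ((n : ℝ) * (n + 1)) = 1 / N - 1 / M := by
  induction M, h using Nat.le_induction with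
  | base => simp
  | succ M h ih =>
    rw [Finset.sum_Ico_succ_top h, ih]
    have hM : (0 : ℝ) < M := by exact_mod_cast lt_of_lt_of_le hN h
    push_cast
    field_simp
    ring

theorem adw_geo (M : ℕ) (N : ℕ → ℕ) (hN : ∀ j, 2 ^ (j + 40) ≤ N j) :
    ∑ j ∈ range M, ∑ n ∈ (range M).filter (fun n => N j ≤ n),
      ((adw (Nat.log 2 n ^ 2)).card : ℝ) * (1 / 2) ^ (Nat.log 2 n ^ 2 / 8) ≤ 1 / 10 := by
  have h1 : ∀ j ∈ range M, ∑ n ∈ (range M).filter (fun n => N j ≤ n),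
      ((adw (Nat.log 2 n ^ 2)).card : ℝ) * (1 / 2) ^ (Nat.log 2 n ^ 2 / 8) ≤
      (1 / 2) ^ (j + 40) := by
    intro j _
    have hj1 : 1 ≤ N j := le_trans Nat.one_le_two_pow (hN j)
    have h40 : 2 ^ 40 ≤ N j := le_trans (Nat.pow_le_pow_right (by norm_num) (by omega)) (hN j)
    have hfi : (range M).filter (fun n => N j ≤ n) = Ico (N j) M := by
      ext n
      rw [mem_filter, mem_range, mem_Ico]
      tauto
    rw [hfi]
    have h2 : ∑ n ∈ Ico (N j) M,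
        ((adw (Nat.log 2 n ^ 2)).card : ℝ) * (1 / 2) ^ (Nat.log 2 n ^ 2 / 8) ≤
        ∑ n ∈ Ico (N j) M, 1 / ((n : ℝ) * (n + 1)) :=
      Finset.sum_le_sum fun n hn => adw_one n (h40.trans (mem_Ico.1 hn).1)
    have h3 : ∑ n ∈ Ico (N j) M, 1 / ((n : ℝ) * (n + 1)) ≤ 1 / (N j : ℝ) := by
      by_cases hM : N j ≤ M
      · rw [tel_sum (N j) M hj1 hM]
        have : (0 : ℝ) ≤ 1 / (M : ℝ) := by positivity
        linarith
      · rw [Finset.Ico_eq_empty (by omega), Finset.sum_empty]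
        positivity
    have h4 : (1 : ℝ) / (N j : ℝ) ≤ (1 / 2) ^ (j + 40) := by
      rw [one_div_pow]
      exact one_div_le_one_div_of_le (by positivity) (by exact_mod_cast hN j)
    exact h2.trans (h3.trans h4)
  refine (Finset.sum_le_sum h1).trans ?_
  have h2 : ∑ j ∈ range M, (1 / 2 : ℝ) ^ (j + 40) =
      (1 / 2) ^ 40 * ∑ j ∈ range M, (1 / 2 : ℝ) ^ j := by
    rw [Finset.mul_sum]
    exact Finset.sum_congr rfl fun j _ => by rw [pow_add]; ring
  have h3 : ∑ j ∈ range M, (1 / 2 : ℝ) ^ j ≤ 2 := by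
    rw [geom_sum_eq (by norm_num)]
    have : (0 : ℝ) ≤ (1 / 2) ^ M := by positivity
    have e : ((1 / 2 : ℝ) ^ M - 1) / (1 / 2 - 1) = 2 * (1 - (1 / 2) ^ M) := by ring
    rw [e]
    linarith
  rw [h2]
  have h4 : ((1 / 2 : ℝ) ^ 40) ≤ 1 / 20 := by norm_num
  have h5 : 0 ≤ ∑ j ∈ range M, (1 / 2 : ℝ) ^ j := Finset.sum_nonneg fun j _ => by positivity
  nlinarith

theorem two_pt {α β : Type*} [Fintype α] [Fintype β] (w φ : α → β → ℝ)
    (hw : ∀ x y, 0 ≤ w x y)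
    (h : ∑ x, ∑ y, w x y * φ x y < ∑ x, ∑ y, w x y) :
    ∃ x y, 0 < w x y ∧ φ x y < 1 := by
  by_contra hcon
  push Not at hcon
  refine absurd h (not_lt.2 (Finset.sum_le_sum fun x _ => Finset.sum_le_sum fun y _ => ?_))
  rcases (hw x y).lt_or_eq with h2 | h2
  · exact le_mul_of_one_le_right h2.le (hcon x y h2)
  · rw [← h2, zero_mul]

theorem two_swap {ι α β : Type*} [Fintype α] [Fintype β] (s : Finset ι)
    (w : α → β → ℝ) (f : ι → α → β → ℝ) :
    ∑ x, ∑ y, w x y * ∑ i ∈ s, f i x y = ∑ i ∈ s, ∑ x, ∑ y, w x y * f i x y := by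
  have h1 : ∀ x, ∑ y, w x y * ∑ i ∈ s, f i x y = ∑ i ∈ s, ∑ y, w x y * f i x y := by
    intro x
    rw [Finset.sum_comm]
    exact Finset.sum_congr rfl fun y _ => Finset.mul_sum _ _ _
  rw [Finset.sum_congr rfl fun x _ => h1 x]
  exact Finset.sum_comm

open Classical in
/-- FMW: the oracle for finitely many requirements. -/
theorem pf_FMW (hSUZ : T_SUZ) (hHYZ : Pool.Agent.H18.XX.T_HYZ) (hUNA : T_UNA)
    (hGZA : Pool.Agent.H66.AV.T_GZA)
    (hSPF : Pool.Agent.H66.IP.T_SPF) (hISZ : Pool.Agent.H66.IP.T_ISZ)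
    (hALG : Pool.Agent.H66.AV.T_ALG) (hOVL : Pool.Agent.H66.AV.T_OVL) : T_FMW := by
  intro V G hG
  choose n₀ h0 using hG
  choose n₁ hn₁ using fun j => hSUZ V (G j).1
  have hS : ∀ (j n : ℕ) (a : List Bool) (_ : n₀ j + n₁ j ≤ n ∧ 16 * a.length ≤ Nat.log 2 n ^ 2),
      _ :=
    fun j n a h => hn₁ j n (by omega) ((G j).2 a) fun x => by
      have h2 := h0 j a (List.ofFn x) (by rw [List.length_ofFn]; omega)
        (by rw [List.length_ofFn]; exact h.2)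
      rwa [List.length_ofFn] at h2
  choose A C hAC using hS
  refine ⟨fun j => max (n₀ j + n₁ j) (2 ^ (j + 40)), fun M => ?_⟩
  obtain ⟨N, hN⟩ : ∃ N : ℕ → ℕ, N = fun j => max (n₀ j + n₁ j) (2 ^ (j + 40)) := ⟨_, rfl⟩
  have hN1 : ∀ j, n₀ j + n₁ j ≤ N j := fun j => by rw [hN]; exact le_max_left _ _
  have hN2 : ∀ j, 2 ^ (j + 40) ≤ N j := fun j => by rw [hN]; exact le_max_right _ _
  obtain ⟨_, _, _, _, _, s6⟩ := hSPF (lx V)
  obtain ⟨E, hE⟩ : ∃ E : Finset (ℕ × List Bool), E = (s6 M).toFinset := ⟨_, rfl⟩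
  have hmem : ∀ p, p ∈ E ↔ (sp (lx V) p).length ≤ M := by
    intro p
    rw [hE, Set.Finite.mem_toFinset]
    rfl
  obtain ⟨OO, hOO⟩ := hISZ (dm (lx V)) E
  obtain ⟨M', hM'⟩ : ∃ M' : ℕ, M' = M + ∑ i ∈ range M, (G i).1 + 1 := ⟨_, rfl⟩
  have hk : ∀ j, j < M → (G j).1 < M' := by
    intro j hj
    have h1 : (G j).1 ≤ ∑ i ∈ range M, (G i).1 :=
      Finset.single_le_sum (f := fun i => (G i).1) (fun i _ => Nat.zero_le _) (mem_range.2 hj)
    omega
  have hn : ∀ n, n < M → n < M' := fun n hn => by omega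
  -- the test functions
  let D₀ : List Bool → ℕ → ℕ → Za M' → (∀ p : {a // a ∈ E}, Cz V p.1) → ℝ := fun a j n z P =>
    if h : (n₀ j + n₁ j ≤ n ∧ 16 * a.length ≤ Nat.log 2 n ^ 2) ∧ j < M ∧ n < M then
      tst ((1 / 2) ^ (Nat.log 2 n ^ 2 / 16)) (A j n a h.1) (C j n a h.1)
        (fun T => OO P (ovl n (G j).1 (gza M' z) T)) (z (⟨(G j).1, hk j h.2.1⟩, ⟨n, hn n h.2.2⟩))
    else 0
  have hD₀0 : ∀ a j n z P, 0 ≤ D₀ a j n z P := by
    intro a j n z P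
    by_cases h : (n₀ j + n₁ j ≤ n ∧ 16 * a.length ≤ Nat.log 2 n ^ 2) ∧ j < M ∧ n < M
    · simp only [D₀, dif_pos h]
      exact ((hAC j n a h.1).1 _ _).1
    · simp only [D₀, dif_neg h]
      exact le_rfl
  let D : ℕ → ℕ → Za M' → (∀ p : {a // a ∈ E}, Cz V p.1) → ℝ := fun j n z P =>
    ∑ a ∈ adw (Nat.log 2 n ^ 2), D₀ a j n z P
  have hD0 : ∀ j n z P, 0 ≤ D j n z P := fun j n z P =>
    Finset.sum_nonneg fun a _ => hD₀0 a j n z P
  have hD₀1 : ∀ a j n, ∑ z : Za M', ∑ P, wz V E OO (gza M' z) P * D₀ a j n z P ≤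
      Fintype.card (Za M') * (1 / 2) ^ (Nat.log 2 n ^ 2 / 8) := by
    intro a j n
    by_cases h : (n₀ j + n₁ j ≤ n ∧ 16 * a.length ≤ Nat.log 2 n ^ 2) ∧ j < M ∧ n < M
    · simp only [D₀, dif_pos h]
      exact (hAC j n a h.1).2 M' (hk j h.2.1) (hn n h.2.2) E OO hOO
    · simp only [D₀, dif_neg h, mul_zero, Finset.sum_const_zero]
      positivity
  have hD1 : ∀ j n, ∑ z : Za M', ∑ P, wz V E OO (gza M' z) P * D j n z P ≤
      Fintype.card (Za M') *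
        (((adw (Nat.log 2 n ^ 2)).card : ℝ) * (1 / 2) ^ (Nat.log 2 n ^ 2 / 8)) := by
    intro j n
    have e1 : ∑ z : Za M', ∑ P, wz V E OO (gza M' z) P * D j n z P =
        ∑ a ∈ adw (Nat.log 2 n ^ 2), ∑ z : Za M', ∑ P, wz V E OO (gza M' z) P * D₀ a j n z P :=
      two_swap (adw (Nat.log 2 n ^ 2)) (fun z P => wz V E OO (gza M' z) P)
        (fun a z P => D₀ a j n z P)
    rw [e1]
    refine (Finset.sum_le_sum fun a _ => hD₀1 a j n).trans (le_of_eq ?_)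
    rw [Finset.sum_const, nsmul_eq_mul]
    ring
  have hcard : (0 : ℝ) < Fintype.card (Za M') := by
    have := fmy_za M'
    exact_mod_cast Fintype.card_pos
  let W : Za M' → (∀ p : {a // a ∈ E}, Cz V p.1) → ℝ := fun z P => wz V E OO (gza M' z) P
  let T2 : Za M' → (∀ p : {a // a ∈ E}, Cz V p.1) → ℝ :=
    fun z P => ∑ j ∈ range M, ∑ n ∈ (range M).filter (fun n => N j ≤ n), D j n z P
  have hW0 : ∀ z P, 0 ≤ W z P := fun z P => ((hHYZ V E OO hOO (gza M' z)).1 P).1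
  have hW : (Fintype.card (Za M') : ℝ) * (3 / 4) ≤ ∑ z, ∑ P, W z P := by
    have h2 : ∑ _z : Za M', (3 / 4 : ℝ) ≤ ∑ z : Za M', ∑ P, wz V E OO (gza M' z) P :=
      Finset.sum_le_sum fun z _ => (hHYZ V E OO hOO (gza M' z)).2.1
    refine le_trans (le_of_eq ?_) h2
    rw [Finset.sum_const, Finset.card_univ, nsmul_eq_mul]
  have hT : ∑ z, ∑ P, W z P * T2 z P ≤ (Fintype.card (Za M') : ℝ) * (1 / 10) := by
    have e0 : ∑ z, ∑ P, W z P * T2 z P = ∑ j ∈ range M, ∑ z, ∑ P,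
        W z P * ∑ n ∈ (range M).filter (fun n => N j ≤ n), D j n z P :=
      two_swap (range M) W
        (fun j z P => ∑ n ∈ (range M).filter (fun n => N j ≤ n), D j n z P)
    rw [e0]
    have e2 : ∀ j ∈ range M, ∑ z, ∑ P,
        W z P * ∑ n ∈ (range M).filter (fun n => N j ≤ n), D j n z P ≤
        ∑ n ∈ (range M).filter (fun n => N j ≤ n),
          (Fintype.card (Za M') : ℝ) *
            (((adw (Nat.log 2 n ^ 2)).card : ℝ) * (1 / 2) ^ (Nat.log 2 n ^ 2 / 8)) := by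
      intro j _
      have e1 : ∑ z, ∑ P,
          W z P * ∑ n ∈ (range M).filter (fun n => N j ≤ n), D j n z P =
          ∑ n ∈ (range M).filter (fun n => N j ≤ n), ∑ z, ∑ P, W z P * D j n z P :=
        two_swap ((range M).filter (fun n => N j ≤ n)) W (fun n z P => D j n z P)
      rw [e1]
      exact Finset.sum_le_sum fun n _ => hD1 j n
    refine (Finset.sum_le_sum e2).trans ?_
    have e3 : ∑ j ∈ range M, ∑ n ∈ (range M).filter (fun n => N j ≤ n),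
        (Fintype.card (Za M') : ℝ) *
          (((adw (Nat.log 2 n ^ 2)).card : ℝ) * (1 / 2) ^ (Nat.log 2 n ^ 2 / 8)) =
        Fintype.card (Za M') * ∑ j ∈ range M,
          ∑ n ∈ (range M).filter (fun n => N j ≤ n),
            ((adw (Nat.log 2 n ^ 2)).card : ℝ) * (1 / 2 : ℝ) ^ (Nat.log 2 n ^ 2 / 8) := by
      rw [Finset.mul_sum]
      exact Finset.sum_congr rfl fun j _ => (Finset.mul_sum _ _ _).symm
    rw [e3]
    exact mul_le_mul_of_nonneg_left (adw_geo M N hN2) (by positivity)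
  obtain ⟨z, P, hw, hy⟩ : ∃ z P, 0 < W z P ∧ T2 z P < 1 := by
    refine two_pt W T2 hW0 ?_
    have h2 : 0 < (Fintype.card (Za M') : ℝ) := hcard
    linarith
  have hDz' : ∀ j n, j < M → n < M → N j ≤ n → D j n z P < 1 := by
    intro j n hj hn' hNn
    refine lt_of_le_of_lt ?_ hy
    have h1 : D j n z P ≤ ∑ n ∈ (range M).filter (fun n => N j ≤ n), D j n z P :=
      Finset.single_le_sum (f := fun n => D j n z P) (fun i _ => hD0 _ _ _ _)
        (mem_filter.2 ⟨mem_range.2 hn', hNn⟩)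
    exact h1.trans (Finset.single_le_sum
      (f := fun j => ∑ n ∈ (range M).filter (fun n => N j ≤ n), D j n z P)
      (fun i _ => Finset.sum_nonneg fun n _ => hD0 _ _ _ _) (mem_range.2 hj))
  have hok : ∀ p : {a // a ∈ E},
      OkB (qs (sp (lx V) p.1)) (sp (lx V) p.1).length (rns (sp (lx V) p.1)) (wln (sp (lx V) p.1))
        (ax V (OO P (gza M' z)) p.1) (P p) := by
    intro p
    have h1 : mBp (lx V) p.1 (ax V (OO P (gza M' z)) p.1) (P p) ≠ 0 := by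
      intro h0
      refine hw.ne' ?_
      exact Finset.prod_eq_zero (Finset.mem_univ p) h0
    unfold mBp mB at h1
    by_contra h2
    rw [if_neg h2] at h1
    exact h1 rfl
  have hovz : ∀ t : Fin M' × Fin M', ovl t.2.1 t.1.1 (gza M' z) (tbl (z t)) = gza M' z := by
    intro t
    have h3 := hGZA M' z t (z t)
    rw [Function.update_eq_self] at h3
    exact h3.symm
  refine ⟨OO P (gza M' z), fun p hp => ?_, fun k n hkM hnM x => ?_,
    fun j hj n hn' hNn a ha => ?_⟩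
  · have hpE : p ∈ E := (hmem p).2 hp
    unfold GoodZ
    have h5 : (cps (OO P (gza M' z)) (sp (lx V) p), cst (OO P (gza M' z)) (sp (lx V) p)) =
        P ⟨p, hpE⟩ := Prod.ext (hOO.blk P _ p hpE) (hOO.cor P _ p hpE)
    rw [h5]
    exact hok ⟨p, hpE⟩
  · have hkM' : k < M' := by omega
    have hnM' : n < M' := by omega
    have h2 : ovl n k (gza M' z) (tbl (z (⟨k, hkM'⟩, ⟨n, hnM'⟩))) = gza M' z :=
      hovz (⟨k, hkM'⟩, ⟨n, hnM'⟩)
    refine hUNA n k (z (⟨k, hkM'⟩, ⟨n, hnM'⟩)) x _ fun q => ?_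
    have h3 := ((hOVL n k (gza M' z)).2.2.2 (lx V) E OO hOO P).2
      (tbl (z (⟨k, hkM'⟩, ⟨n, hnM'⟩))) x q
    rw [h2] at h3
    exact h3
  · have hNn' : N j ≤ n := by rw [hN]; exact hNn
    have h : (n₀ j + n₁ j ≤ n ∧ 16 * a.length ≤ Nat.log 2 n ^ 2) ∧ j < M ∧ n < M :=
      ⟨⟨(hN1 j).trans hNn', ha⟩, hj, hn'⟩
    have h1 : D₀ a j n z P < 1 := lt_of_le_of_lt
      (Finset.single_le_sum (f := fun a => D₀ a j n z P) (fun a _ => hD₀0 a j n z P)
        ((mem_adw (Nat.log 2 n ^ 2) a).2 ha)) (hDz' j n hj hn' hNn')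
    simp only [D₀, dif_pos h] at h1
    obtain ⟨t, ht⟩ : ∃ t : Fin M' × Fin M', t = (⟨(G j).1, hk j h.2.1⟩, ⟨n, hn n h.2.2⟩) :=
      ⟨_, rfl⟩
    have h2 : ovl n (G j).1 (gza M' z)
        (tbl (z (⟨(G j).1, hk j h.2.1⟩, ⟨n, hn n h.2.2⟩))) = gza M' z :=
      hovz (⟨(G j).1, hk j h.2.1⟩, ⟨n, hn n h.2.2⟩)
    have h4 : ∀ x, List.ofFn x ∈ alang (G j).1
        ((fun T => OO P (ovl n (G j).1 (gza M' z) T))
          (tbl (z (⟨(G j).1, hk j h.2.1⟩, ⟨n, hn n h.2.2⟩)))) ↔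
        (z (⟨(G j).1, hk j h.2.1⟩, ⟨n, hn n h.2.2⟩) x).1 = true := by
      intro x
      refine hALG.1 n (G j).1 (z (⟨(G j).1, hk j h.2.1⟩, ⟨n, hn n h.2.2⟩)) x _ fun q => ?_
      exact ((hOVL n (G j).1 (gza M' z)).2.2.2 (lx V) E OO hOO P).2 _ x q
    have h5 := ((hAC j n a h.1).1 (fun T => OO P (ovl n (G j).1 (gza M' z) T))
      (z (⟨(G j).1, hk j h.2.1⟩, ⟨n, hn n h.2.2⟩))).2 h4 h1
    beta_reduce at h5
    rw [h2] at h5
    exact h5

end Pool.Agent.H36.XX
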