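import Pool.Agent.H18.XX.TA
import Pool.Agent.H17.EX.RWK
import Pool.Agent.H36.IQ.OND

/-!
# The exponential hierarchy in EQP: row ONR (a game does not see one copy, relative to the event)
-/

set_option autoImplicit false

namespace Pool.Agent.H36.XX

open Finset Pool.Agent.H6.NB Pool.Agent.H70.EH Pool.Agent.H78.XQ Pool.Agent.H66.IQ
open Pool.Agent.H18.XX

/-- the leaf of an event -/
def lfA {V : Type} [Fintype V] (A : (V → Bool) → Bool) : Lf V where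
  f := A
  Q := fun _ => univ
  path := fun y y' h => by
    have e : y' = y := funext fun v => h v (mem_univ v)
    rw [e]
    exact ⟨rfl, rfl⟩

theorem onr_num (A K k B S E0 E1 D Δ τ : ℝ) (hA : 1 ≤ A) (hkK : k ≤ K) (hk0 : 0 ≤ k)
    (hB : 1 ≤ B) (hE0 : 0 ≤ E0) (hτ : 0 ≤ τ) (hS : B * B ≤ S) (hAK : A * (4000 * K) ≤ B)
    (hE : E1 ≤ E0 + (A * (4000 * B * K) / S * E0 + 2 * τ))
    (hD : D ≤ A * (4000 * B * K) / S * E0 + 2 * τ)
    (hΔ : Δ ≤ D + k / B * max E0 E1) :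
    Δ ≤ A * (4003 * K / B) * E0 + 4 * τ := by
  have hB0 : 0 < B := by linarith
  have hS0 : 0 < S := lt_of_lt_of_le (mul_pos hB0 hB0) hS
  have hK0 : 0 ≤ K := hk0.trans hkK
  have hKB : 0 ≤ K / B := div_nonneg hK0 hB0.le
  have h1 : A * (4000 * B * K) / S ≤ 4000 * (A * (K / B)) := by
    rw [div_le_iff₀ hS0]
    have e : 4000 * (A * (K / B)) * S = 4000 * (A * K) * (S / B) := by field_simp
    rw [e]
    have h2 : B ≤ S / B := by
      rw [le_div_iff₀ hB0]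
      exact hS
    have h3 : 0 ≤ A * K := mul_nonneg (by linarith) hK0
    nlinarith [mul_nonneg h3 (sub_nonneg.2 h2)]
  have h2 : 4000 * (A * (K / B)) ≤ 1 := by
    have e : 4000 * (A * (K / B)) = A * (4000 * K) / B := by ring
    rw [e, div_le_one hB0]
    exact hAK
  have h3 : k / B ≤ A * (K / B) := by
    have h4 : k / B ≤ K / B := div_le_div_of_nonneg_right hkK hB0.le
    nlinarith
  have hkB : 0 ≤ k / B := div_nonneg hk0 hB0.le
  have h4 : k / B ≤ 1 := by linarith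
  obtain ⟨x, hx⟩ : ∃ x : ℝ, x = A * (4000 * B * K) / S := ⟨_, rfl⟩
  obtain ⟨z, hz⟩ : ∃ z : ℝ, z = A * (K / B) := ⟨_, rfl⟩
  rw [← hx] at hE hD h1
  rw [← hz] at h1 h2 h3
  have hz0 : 0 ≤ z := by linarith
  have e : A * (4003 * K / B) = 4003 * z := by rw [hz]; ring
  rw [e]
  have hxE : x * E0 ≤ 4000 * z * E0 := mul_le_mul_of_nonneg_right h1 hE0
  have hxE1 : x * E0 ≤ E0 := by
    have := mul_le_mul_of_nonneg_right (h1.trans h2) hE0
    linarith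
  have hm : max E0 E1 ≤ 2 * E0 + 2 * τ := max_le (by linarith) (by linarith)
  have h5 : k / B * max E0 E1 ≤ k / B * (2 * E0 + 2 * τ) := mul_le_mul_of_nonneg_left hm hkB
  have h6 : k / B * (2 * E0) ≤ z * (2 * E0) := mul_le_mul_of_nonneg_right h3 (by linarith)
  have h7 : k / B * (2 * τ) ≤ 1 * (2 * τ) := mul_le_mul_of_nonneg_right h4 (by linarith)
  have h8 : 0 ≤ z * E0 := mul_nonneg hz0 hE0
  nlinarith

/-- ONR: a game whose leaves are formulas does not see one copy, relative to the event. -/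
theorem pf_ONR (hEVR : T_EVR) (hEVS : T_EVS) (hRTR : T_RTR) (hG3R : T_G3R)
    (hRWK : Pool.Agent.H17.EX.T_RWK) (hMUV : Pool.Agent.H70.EH.T_MUV) : T_ONR := by
  intro q k m S d w t A hq hk hw hcc hdp hcb hcl hz hnum
  have hB1 : (1 : ℝ) ≤ 2 ^ (q / 4) := one_le_pow₀ (by norm_num)
  have hB0 : (0 : ℝ) < 2 ^ (q / 4) := by linarith
  obtain ⟨β, hβ⟩ : ∃ β : ℝ, β = 2 ^ (q / 4) := ⟨_, rfl⟩
  rw [← hβ] at hB1 hB0 hnum ⊢
  have hF : ∀ y, 0 ≤ t.sv β y ∧ t.sv β y ≤ t.ev y ∧ t.ev y ≤ 1 ∧ t.ev y ≤ t.sv β y + t.cc / β :=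
    fun y => hEVS (VV q) β t y hB0
  obtain ⟨a, ha⟩ : ∃ a : ℝ, a = (128 * (w : ℝ)) ^ (2 * (d + 1)) := ⟨_, rfl⟩
  obtain ⟨R, hRdef⟩ : ∃ R : ℝ, R = (2 * 2 ^ q) ^ 2 * 2 ^ m * ((S : ℝ) + 1) ^ (d + 1) / 2 ^ w :=
    ⟨_, rfl⟩
  obtain ⟨K, hK⟩ : ∃ K : ℝ, K = (k : ℝ) ^ 2 * ((m + 1) * (w : ℝ) ^ 2) := ⟨_, rfl⟩
  have hw' : (1 : ℝ) ≤ w := by exact_mod_cast hw
  have ha1 : 1 ≤ a := by
    rw [ha]
    exact one_le_pow₀ (by linarith)
  have hR0 : 0 ≤ R := by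
    rw [hRdef]
    positivity
  have hk' : (1 : ℝ) ≤ k := by exact_mod_cast hk
  have hm' : (1 : ℝ) ≤ (m : ℝ) + 1 := by
    have : (0 : ℝ) ≤ m := Nat.cast_nonneg m
    linarith
  have hkk : (k : ℝ) ≤ k ^ 2 := by nlinarith
  have hww : (1 : ℝ) ≤ (w : ℝ) ^ 2 := by nlinarith
  have hdw : (1 : ℝ) ≤ ((m : ℝ) + 1) * (w : ℝ) ^ 2 := by nlinarith
  have hkK : (k : ℝ) ≤ K := by
    have hK1 : (k : ℝ) ^ 2 * 1 ≤ (k : ℝ) ^ 2 * (((m : ℝ) + 1) * (w : ℝ) ^ 2) :=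
      mul_le_mul_of_nonneg_left hdw (by positivity)
    rw [hK]
    linarith
  have hK0 : 0 ≤ K := by linarith
  have hsq : β * β ≤ √(2 ^ q) := by
    apply Real.le_sqrt_of_sq_le
    rw [hβ, ← pow_add, ← pow_mul]
    exact pow_le_pow_right₀ (by norm_num) (by omega)
  have hnum' : a * (4000 * K) ≤ β := by
    refine (le_of_eq ?_).trans hnum
    rw [ha, hK]
    ring
  obtain ⟨Λ, hΛ⟩ : ∃ Λ : ℝ, Λ = a * (4000 * β * K) := ⟨_, rfl⟩
  have hΛ0 : 0 ≤ Λ := by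
    rw [hΛ]
    exact mul_nonneg (by linarith) (mul_nonneg (by linarith) hK0)
  have hΛs : Λ ≤ √(2 ^ q) := by
    refine le_trans ?_ hsq
    have := mul_le_mul_of_nonneg_right hnum' hB0.le
    rw [hΛ]
    linarith
  -- the bound for any game with a given event
  have hL : ∀ (s : Tr (VV q)), s.cc ≤ k → s.dp ≤ m → s.Cb S (d + 1) →
      (∀ y, A y = false → s.ev y = 0) → ∀ ρ, L12 (rst ρ (s.sv β)) ≤
      Λ * mn (rst ρ fun y => bi (A y)) + a * R := by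
    intro s hs1 hs2 hs3 hs4 ρ
    obtain ⟨t', h1, h2, -, h4, h6, h5⟩ := hRTR (VV q) s ρ
    have e : rst ρ (s.sv β) = t'.sv β := funext fun y => (h5 β y).symm
    have h7 := hG3R (VV q) β k m S d w t' (rst ρ A) hB1 hk hw (h1.trans hs1) (h2.trans hs2)
      (h4 S (d + 1) hs3) (fun y hy => by rw [h6 y]; exact hs4 _ hy)
    rw [e]
    refine h7.trans (le_of_eq ?_)
    rw [Pool.Agent.H36.IQ.card_VV q, ← ha]
    have e2 : mn (fun y => bi (rst ρ A y)) = mn (rst ρ fun y => bi (A y)) := rfl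
    rw [e2, hΛ, hK, hRdef]
    ring
  have hLt := hL t hcc hdp hcb hz
  have hLA : ∀ ρ, L12 (rst ρ fun y => bi (A y)) ≤ Λ * mn (rst ρ fun y => bi (A y)) + a * R :=
    hL (Tr.lf (lfA A)) (Nat.zero_le _) (Nat.zero_le _) hcl (fun y hy => by
      show bi (A y) = 0
      rw [hy]
      rfl)
  have hbA : ∀ y, 0 ≤ bi (A y) ∧ bi (A y) ≤ 1 := by
    intro y
    unfold bi
    split_ifs <;> norm_num
  have hτ0 : 0 ≤ a * R := mul_nonneg (by linarith) hR0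
  have hA1 := hRWK q (t.sv β) (fun y => bi (A y)) Λ (a * R) hq hΛ0 hΛs hτ0 hLt hLA
    (fun y => abs_le.2 ⟨by linarith [(hF y).1], by linarith [(hF y).2.1, (hF y).2.2.1]⟩) hbA
  have hA2 := hRWK q (fun y => bi (A y)) (fun y => bi (A y)) Λ (a * R) hq hΛ0 hΛs hτ0 hLA hLA
    (fun y => abs_le.2 ⟨by linarith [(hbA y).1], (hbA y).2⟩) hbA
  obtain ⟨m1, s1, -⟩ := hMUV true q
  obtain ⟨m0, s0, -⟩ := hMUV false q
  obtain ⟨E0, hE0⟩ : ∃ E0 : ℝ, E0 = ∑ p, mv false q p * bi (A p) := ⟨_, rfl⟩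
  obtain ⟨E1, hE1⟩ : ∃ E1 : ℝ, E1 = ∑ p, mv true q p * bi (A p) := ⟨_, rfl⟩
  have hkc : (t.cc : ℝ) / β ≤ k / β :=
    div_le_div_of_nonneg_right (by exact_mod_cast hcc) hB0.le
  have hb : ∀ p, t.sv β p ≤ t.ev p ∧ t.ev p ≤ t.sv β p + k / β * bi (A p) := fun p => by
    obtain ⟨h1, h2⟩ := hEVR (VV q) β t A hB0 hz p
    exact ⟨h1, h2.trans (by linarith [mul_le_mul_of_nonneg_right hkc (hbA p).1])⟩
  have hav : ∀ c : Bool, (∀ p, 0 ≤ mv c q p) →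
      ∑ p, mv c q p * t.sv β p ≤ ∑ p, mv c q p * t.ev p ∧
      ∑ p, mv c q p * t.ev p ≤ ∑ p, mv c q p * t.sv β p + k / β * ∑ p, mv c q p * bi (A p) := by
    intro c hc
    constructor
    · exact Finset.sum_le_sum fun p _ => mul_le_mul_of_nonneg_left (hb p).1 (hc p)
    · rw [Finset.mul_sum, ← Finset.sum_add_distrib]
      exact Finset.sum_le_sum fun p _ => by
        have := mul_le_mul_of_nonneg_left (hb p).2 (hc p)
        linarith
  obtain ⟨a1, a2⟩ := hav true m1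
  obtain ⟨b1, b2⟩ := hav false m0
  rw [← hE0] at hA1 hA2 b2
  rw [← hE1] at hA2 a2
  have hE00 : 0 ≤ E0 := by
    rw [hE0]
    exact Finset.sum_nonneg fun p _ => mul_nonneg (m0 p) (hbA p).1
  have hkβ : 0 ≤ (k : ℝ) / β := div_nonneg (Nat.cast_nonneg k) hB0.le
  have hΔ : |∑ p, mv true q p * t.ev p - ∑ p, mv false q p * t.ev p| ≤
      |∑ p, mv true q p * t.sv β p - ∑ p, mv false q p * t.sv β p| + k / β * max E0 E1 := by
    have c1 := le_abs_self (∑ p, mv true q p * t.sv β p - ∑ p, mv false q p * t.sv β p)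
    have c2 := neg_abs_le (∑ p, mv true q p * t.sv β p - ∑ p, mv false q p * t.sv β p)
    have c3 := mul_le_mul_of_nonneg_left (le_max_left E0 E1) hkβ
    have c4 := mul_le_mul_of_nonneg_left (le_max_right E0 E1) hkβ
    rw [abs_le]
    constructor <;> linarith
  have hT : (0 : ℝ) ≤ 1 / 2 ^ 2 ^ (q - 2) := by positivity
  have hEE : E1 ≤ E0 + (a * (4000 * β * K) / √(2 ^ q) * E0 + 2 * (a * R + 1 / 2 ^ 2 ^ (q - 2))) := by
    have := le_abs_self (E1 - E0)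
    rw [← hΛ]
    linarith
  have hfin := onr_num a K k β (√(2 ^ q)) E0 E1
    (|∑ p, mv true q p * t.sv β p - ∑ p, mv false q p * t.sv β p|)
    (|∑ p, mv true q p * t.ev p - ∑ p, mv false q p * t.ev p|) (a * R + 1 / 2 ^ 2 ^ (q - 2))
    ha1 hkK (Nat.cast_nonneg k) hB1 hE00 (by linarith) hsq hnum' hEE
    (by rw [← hΛ]; exact hA1) hΔ
  rw [← hE0, ← ha, ← hRdef]
  refine hfin.trans (le_of_eq ?_)
  rw [hK]
  ring

end Pool.Agent.H36.XX
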