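import Pool.Agent.H18.XX.TB
import Pool.Agent.H66.AVH.REQ

/-!
# The exponential hierarchy in EQP: row RXZ (the expectation of the test function)
-/

set_option autoImplicit false

namespace Pool.Agent.H36.XX

open Finset Pool.Agent.H70.OQ
open Pool.Agent.H70.EH hiding T_NUM
open Pool.Agent.H78.XQ hiding T_POW T_SUM
open Pool.Agent.H6.NB hiding sg T_NUM
open Pool.Agent.H70.EI hiding T_AST
open Pool.Agent.H66.IP (Local ins sp dm IsZ scl mBp m0p)
open Pool.Agent.H66.IQ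
open Pool.Agent.H66.AV
open Pool.Agent.H66.AVH (req_sq req_ln within_mono)
open Pool.Agent.H18.XX

/-- `2 L^2 <= n / 6` for large `n` -/
theorem log_sq : ∃ n₀ : ℕ, ∀ n ≥ n₀, 2 * Nat.log 2 n ^ 2 ≤ n / 6 := by
  refine ⟨2 ^ 12, fun n hn => ?_⟩
  obtain ⟨L, hL⟩ : ∃ L, L = Nat.log 2 n := ⟨_, rfl⟩
  have hn0 : n ≠ 0 := by
    intro h
    rw [h] at hn
    exact absurd hn (by norm_num)
  have hL12 : 12 ≤ L := by
    rw [hL]
    exact Nat.le_log_of_pow_le (by norm_num) hn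
  have hle : 2 ^ L ≤ n := by
    rw [hL]
    exact Nat.pow_log_le_self 2 hn0
  rw [← hL]
  have key : ∀ m : ℕ, 12 ≤ m → 12 * m ^ 2 ≤ 2 ^ m := by
    intro m hm
    induction m, hm using Nat.le_induction with
    | base => norm_num
    | succ m hm ih =>
      have e : 2 ^ (m + 1) = 2 ^ m * 2 := pow_succ 2 m
      rw [e]
      nlinarith
  have := key L hL12
  rw [Nat.le_div_iff_mul_le (by norm_num)]
  omega

/-- RXZ: the expectation of the test function. -/
theorem pf_RXZ (hPFR : T_PFR) (hHYZ : Pool.Agent.H18.XX.T_HYZ) (hLOY : T_LOY)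
    (hID1 : Pool.Agent.H66.AV.T_ID1) (hID2 : Pool.Agent.H66.AV.T_ID2)
    (hAST : Pool.Agent.H66.AV.T_AST) (hOVL : Pool.Agent.H66.AV.T_OVL) : T_RXZ := by
  intro V k
  obtain ⟨n₂, h2⟩ := hPFR V k
  obtain ⟨n₃, h3⟩ := hID1 k
  obtain ⟨n₄, h4⟩ := hID2 k
  obtain ⟨n₅, h5⟩ := log_sq
  refine ⟨n₂ + n₃ + n₄ + n₅ + 20, fun n hn A C B hB hA' hC' hrel ε hε E O hO g => ?_⟩
  have hLn := h5 n (by omega)
  have hA : ∀ x, (A x).Within (2 ^ (n / 6)) := fun x =>
    within_mono (Nat.pow_le_pow_right (by norm_num) hLn) (hA' x)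
  obtain ⟨s, hs⟩ : ∃ s, s = Nat.log 2 n + 18 := ⟨_, rfl⟩
  have hs20 : 20 ≤ s := by
    have : 2 ≤ Nat.log 2 n := Nat.le_log_of_pow_le (by norm_num) (by omega)
    omega
  set one : Prot k := .test (.leaf true) with hone
  have hone4 : one.Within (2 ^ (2 * Nat.log 2 n ^ 2)) := ⟨Nat.zero_le _, Nat.zero_le _, trivial⟩
  have hval1 : ∀ O, one.val O = 1 := fun O => by
    show (if (Exam.leaf true : Exam k).eval O = true then (1 : ℝ) else 0) = 1
    exact if_pos rfl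
  -- a pair of protocols
  have hpair : ∀ (G₁ G₂ : Prot k), G₁.Within (2 ^ (2 * Nat.log 2 n ^ 2)) →
      G₂.Within (2 ^ (2 * Nat.log 2 n ^ 2)) → ∀ g₀ g₁ g₂ : List Bool → Bool,
      |∑ P, (wz V E O g₀ P - wy V E O s g₀ P) * (G₁.val (O P g₁) * G₂.val (O P g₂))| ≤
        (1 / 2) ^ s ^ 3 := by
    intro G₁ G₂ hG₁ hG₂ g₀ g₁ g₂
    have h := (hHYZ V E O hO g₀).2.2.2 s (fun P => G₁.val (O P g₁) * G₂.val (O P g₂)) hs20
      (fun p hp => h2 n (by omega) G₁ G₂ hG₁ hG₂ E O hO g₀ g₁ g₂ p (by rw [← hs]; exact hp))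
    rw [← Finset.sum_sub_distrib] at h
    simpa only [sub_mul] using h
  have hcard : (Fintype.card (Fin n → Bool) : ℝ) = 2 ^ n := by simp
  have h4n : (4 : ℝ) ^ n = (2 ^ n) ^ 2 := by
    rw [← pow_mul, mul_comm, pow_mul]; norm_num
  have h2n : (0 : ℝ) < 2 ^ n := by positivity
  obtain ⟨δ, hδ⟩ : ∃ δ : ℝ, δ = (1 / 2) ^ s ^ 3 := ⟨_, rfl⟩
  rw [← hδ] at hpair
  have hδ0 : 0 ≤ δ := by rw [hδ]; positivity
  -- the weights of the blocks of small scale
  have hwg : ∀ (z : Wn n k) P, wy V E O s (ovl n k g (tbl z)) P = wy V E O s g P := by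
    intro z P
    rw [hs]
    refine hLOY V E O hO n _ _ (by omega) (fun w hw => ?_) P
    refine (hOVL n k g).2.1 (tbl z) w fun x q hwx => ?_
    have := (hAST.1 n k x q).1
    rw [← hwx] at this
    omega
  have hz : ∀ z : Wn n k, ∑ P, wz V E O (ovl n k g (tbl z)) P *
      tst ε A C (fun T => O P (ovl n k g T)) z ≤
      ∑ P, wy V E O s g P * tst ε A C (fun T => O P (ovl n k g T)) z +
        (36 / ε ^ 2 + 4 / ε) * δ := by
    intro z
    set D : (∀ p : {a // a ∈ E}, Cz V p.1) → ℝ := fun P =>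
      wz V E O (ovl n k g (tbl z)) P - wy V E O s (ovl n k g (tbl z)) P with hD
    have hs0 := req_sq D (fun x => sg (z x).1)
      (fun x P => (A x).val (O P (ovl n k g (tbl (zer z x))))) δ
      (fun x => by unfold sg; split_ifs <;> norm_num)
      (fun x x' => hpair (A x) (A x') (hA' x) (hA' x') _ _ _)
      (fun x => by
        have h := hpair (A x) one (hA' x) hone4 (ovl n k g (tbl z))
          (ovl n k g (tbl (zer z x))) g
        simpa only [hval1, mul_one] using h)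
      (by
        have h := hpair one one hone4 hone4 (ovl n k g (tbl z)) g g
        simpa only [hval1, mul_one] using h)
    have hs1 := req_ln D (fun x => (z x).1)
      (fun x P => (A x).val (O P (ovl n k g (tbl (zer z x)))))
      (fun x P => (C x).val (O P (ovl n k g (tbl z)))) δ hδ0
      (fun x => hpair (A x) (C x) (hA' x) (hC' x) _ _ _)
      (fun x => by
        have h := hpair (A x) one (hA' x) hone4 (ovl n k g (tbl z))
          (ovl n k g (tbl (zer z x))) g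
        simpa only [hval1, mul_one] using h)
    rw [hcard] at hs0 hs1
    have e1 : ∑ P, wz V E O (ovl n k g (tbl z)) P *
        tst ε A C (fun T => O P (ovl n k g T)) z =
        ∑ P, wy V E O s g P * tst ε A C (fun T => O P (ovl n k g T)) z +
        (16 / (ε ^ 2 * 4 ^ n) * ∑ P, D P * (∑ x, sg (z x).1 *
          ((A x).val (O P (ovl n k g (tbl (zer z x)))) - 1 / 2)) ^ 2 +
        2 / (ε * 2 ^ n) * ∑ P, D P * (∑ x, if (z x).1 then
          (A x).val (O P (ovl n k g (tbl (zer z x)))) *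
          (1 - (C x).val (O P (ovl n k g (tbl z)))) else 0)) := by
      rw [Finset.mul_sum, Finset.mul_sum, ← Finset.sum_add_distrib, ← Finset.sum_add_distrib]
      refine Finset.sum_congr rfl fun P _ => ?_
      have e2 : tst ε A C (fun T => O P (ovl n k g T)) z =
          16 / (ε ^ 2 * 4 ^ n) * (∑ x, sg (z x).1 *
          ((A x).val (O P (ovl n k g (tbl (zer z x)))) - 1 / 2)) ^ 2 +
          2 / (ε * 2 ^ n) * (∑ x, if (z x).1 then
          (A x).val (O P (ovl n k g (tbl (zer z x)))) *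
          (1 - (C x).val (O P (ovl n k g (tbl z)))) else 0) := rfl
      rw [e2]
      simp only [hD, hwg z P]
      ring
    rw [e1]
    have hα : 0 ≤ 16 / (ε ^ 2 * 4 ^ n) := by positivity
    have hβ : 0 ≤ 2 / (ε * 2 ^ n) := by positivity
    have f1 := mul_le_mul_of_nonneg_left hs0 hα
    have f2 := mul_le_mul_of_nonneg_left hs1 hβ
    have f3 : 16 / (ε ^ 2 * 4 ^ n) * (((2 : ℝ) ^ n) ^ 2 * (9 / 4 * δ)) = 36 / ε ^ 2 * δ := by
      rw [h4n]; field_simp; ring
    have f4 : 2 / (ε * 2 ^ n) * ((2 : ℝ) ^ n * (2 * δ)) = 4 / ε * δ := by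
      field_simp; ring
    rw [f3] at f1
    rw [f4] at f2
    have f5 : (36 / ε ^ 2 + 4 / ε) * δ = 36 / ε ^ 2 * δ + 4 / ε * δ := by ring
    rw [f5]
    linarith
  refine (Finset.sum_le_sum fun z _ => hz z).trans ?_
  rw [Finset.sum_add_distrib, Finset.sum_comm]
  have hK : ∀ P ∈ (univ : Finset (∀ p : {a // a ∈ E}, Cz V p.1)),
      ∑ z : Wn n k, wy V E O s g P * tst ε A C (fun T => O P (ovl n k g T)) z ≤
      wy V E O s g P * (Fintype.card (Wn n k) * (32 / ε ^ 2 * (1 / 2) ^ (n / 3) +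
        2 / ε * (1 / B + 2 * (1 / 2) ^ (n / 3)))) := by
    intro P _
    rw [← Finset.mul_sum]
    refine mul_le_mul_of_nonneg_left ?_ (((hHYZ V E O hO g).1 P).2 s)
    have hL := ((hOVL n k g).2.2.2 (lx V) E O hO P).1
    have g1 := h3 n (by omega) A C B hB hA hrel _ hL
    have g2 := h4 n (by omega) A hA _ hL
    have e3 : ∑ z : Wn n k, tst ε A C (fun T => O P (ovl n k g T)) z =
        16 / (ε ^ 2 * 4 ^ n) * ∑ z : Wn n k, s0 A (fun T => O P (ovl n k g T)) z ^ 2 +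
        2 / (ε * 2 ^ n) * ∑ z : Wn n k, s1 A C (fun T => O P (ovl n k g T)) z := by
      rw [Finset.mul_sum, Finset.mul_sum, ← Finset.sum_add_distrib]
      rfl
    rw [e3]
    have hα : 0 ≤ 16 / (ε ^ 2 * 4 ^ n) := by positivity
    have hβ : 0 ≤ 2 / (ε * 2 ^ n) := by positivity
    have f1 := mul_le_mul_of_nonneg_left g2 hα
    have f2 := mul_le_mul_of_nonneg_left g1 hβ
    have f3 : 16 / (ε ^ 2 * 4 ^ n) * ((Fintype.card (Wn n k) : ℝ) * 4 ^ n *
        (2 * (1 / 2) ^ (n / 3))) = Fintype.card (Wn n k) * (32 / ε ^ 2 * (1 / 2) ^ (n / 3)) := by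
      field_simp; ring
    have f4 : 2 / (ε * 2 ^ n) * ((Fintype.card (Wn n k) : ℝ) * 2 ^ n *
        (1 / B + 2 * (1 / 2) ^ (n / 3))) =
        Fintype.card (Wn n k) * (2 / ε * (1 / B + 2 * (1 / 2) ^ (n / 3))) := by
      have : ε ≠ 0 := hε.ne'
      have : (2 : ℝ) ^ n ≠ 0 := h2n.ne'
      generalize (1 / (B : ℝ) + 2 * (1 / 2) ^ (n / 3)) = y
      field_simp
    rw [f3] at f1
    rw [f4] at f2
    calc _ ≤ _ := add_le_add f1 f2
      _ = _ := by ring
  have hK0 : 0 ≤ (Fintype.card (Wn n k) : ℝ) * (32 / ε ^ 2 * (1 / 2) ^ (n / 3) +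
        2 / ε * (1 / B + 2 * (1 / 2) ^ (n / 3))) := by positivity
  have hK1 := (Finset.sum_le_sum hK)
  rw [← Finset.sum_mul] at hK1
  have hK2 := mul_le_mul_of_nonneg_right ((hHYZ V E O hO g).2.2.1 s) hK0
  rw [Finset.sum_const, Finset.card_univ, nsmul_eq_mul]
  have hK3 : 5 / 4 * ((Fintype.card (Wn n k) : ℝ) * (32 / ε ^ 2 * (1 / 2) ^ (n / 3) +
        2 / ε * (1 / B + 2 * (1 / 2) ^ (n / 3)))) ≤
      2 * ((Fintype.card (Wn n k) : ℝ) * (32 / ε ^ 2 * (1 / 2) ^ (n / 3) +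
        2 / ε * (1 / B + 2 * (1 / 2) ^ (n / 3)))) :=
    mul_le_mul_of_nonneg_right (by norm_num) hK0
  rw [← hs, ← hδ]
  calc _ ≤ 2 * ((Fintype.card (Wn n k) : ℝ) * (32 / ε ^ 2 * (1 / 2) ^ (n / 3) +
        2 / ε * (1 / B + 2 * (1 / 2) ^ (n / 3)))) +
        Fintype.card (Wn n k) * ((36 / ε ^ 2 + 4 / ε) * δ) :=
      add_le_add (hK1.trans (hK2.trans hK3)) le_rfl
    _ = _ := by ring

end Pool.Agent.H36.XX
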